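import Pool.Agent.W932.RO.Stm

/-! RO-NUM: numbers. -/

set_option autoImplicit false

namespace Pool.Agent.W215.RO

theorem half (K : ℕ) (hK : 1 ≤ K) : (1 - 1 / (K : ℝ)) ^ K ≤ 1 / 2 := by
  have hK0 : (0 : ℝ) < K := by exact_mod_cast hK
  have hK1 : (1 : ℝ) ≤ K := by exact_mod_cast hK
  have h4 : (1 - 1 / (K : ℝ)) ≤ Real.exp (-(1 / (K : ℝ))) := by
    have := Real.add_one_le_exp (-(1 / (K : ℝ)))
    linarith
  have h0 : 0 ≤ 1 - 1 / (K : ℝ) := by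
    rw [sub_nonneg, div_le_one hK0]
    exact hK1
  have h6 : Real.exp (-(1 / (K : ℝ))) ^ K = Real.exp (-1) := by
    rw [← Real.exp_nat_mul]
    congr 1
    field_simp
  have h7 : Real.exp (-1) ≤ 1 / 2 := by
    rw [Real.exp_neg, inv_eq_one_div]
    apply one_div_le_one_div_of_le (by norm_num)
    have := Real.exp_one_gt_d9
    linarith
  calc (1 - 1 / (K : ℝ)) ^ K ≤ Real.exp (-(1 / (K : ℝ))) ^ K := pow_le_pow_left₀ h0 h4 K
    _ = _ := h6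
    _ ≤ _ := h7

theorem upper (β : ℝ) (r K : ℕ) (hK : 1 ≤ K) (hβ0 : 0 < β) (hβ1 : β ≤ 1)
    (h2 : β ≤ 1 - 1 / (K : ℝ)) : (2 : ℝ) ^ (r / K) * β ^ r ≤ 1 := by
  have h4 : β ^ K ≤ 1 / 2 := (pow_le_pow_left₀ hβ0.le h2 K).trans (half K hK)
  have h5 : β ^ r ≤ (1 / 2 : ℝ) ^ (r / K) := by
    calc β ^ r ≤ β ^ (K * (r / K)) :=
          pow_le_pow_of_le_one hβ0.le hβ1 (Nat.mul_div_le r K)
      _ = (β ^ K) ^ (r / K) := by rw [pow_mul]
      _ ≤ _ := pow_le_pow_left₀ (by positivity) h4 _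
  calc (2 : ℝ) ^ (r / K) * β ^ r ≤ (2 : ℝ) ^ (r / K) * (1 / 2 : ℝ) ^ (r / K) :=
        mul_le_mul_of_nonneg_left h5 (by positivity)
    _ = 1 := by
        rw [← mul_pow]
        norm_num

theorem num (β : ℝ) (r : ℕ) (h1 : 1 / 2048 ≤ β) (h2 : β ≤ 1 - 1 / 2048) (hr : 2048 ≤ r) :
    ∃ μ : ℕ, r / 2048 ≤ μ ∧ μ ≤ 11 * r ∧ ∀ Q : ℝ, 16 * Q ≤ 2 ^ μ →
      1 / 16 ≤ β ^ r * (2 ^ μ * (1 - β ^ r) ^ (2 ^ μ - 1) - Q) := by
  classical
  have hβ0 : 0 < β := by linarith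
  have hβ1 : β ≤ 1 := by linarith
  obtain ⟨p, hp⟩ : ∃ p : ℝ, p = β ^ r := ⟨_, rfl⟩
  rw [← hp]
  have hp0 : 0 < p := by rw [hp]; positivity
  have hp1 : p ≤ 1 := by rw [hp]; exact pow_le_one₀ hβ0.le hβ1
  -- lower bound
  have hlow : 1 ≤ (2 : ℝ) ^ (11 * r) * p := by
    have h3 : (1 / 2048 : ℝ) ^ r ≤ β ^ r := pow_le_pow_left₀ (by norm_num) h1 r
    rw [hp, pow_mul]
    calc (1 : ℝ) = ((2 : ℝ) ^ 11) ^ r * (1 / 2048) ^ r := by
          rw [← mul_pow]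
          norm_num
      _ ≤ _ := mul_le_mul_of_nonneg_left h3 (by positivity)
  -- upper bound
  have hup : (2 : ℝ) ^ (r / 2048) * p ≤ 1 := by
    rw [hp]
    exact upper β r 2048 (by norm_num) hβ0 hβ1 (by push_cast; exact h2)
  have hex : ∃ n : ℕ, 1 < (2 : ℝ) ^ (n + 1) * p := by
    refine ⟨11 * r, ?_⟩
    rw [pow_succ]
    linarith
  obtain ⟨μ, hμ1, hμ2⟩ : ∃ μ : ℕ, 1 < (2 : ℝ) ^ (μ + 1) * p ∧ (2 : ℝ) ^ μ * p ≤ 1 := by
    refine ⟨Nat.find hex, Nat.find_spec hex, ?_⟩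
    rcases Nat.eq_zero_or_pos (Nat.find hex) with h | h
    · rw [h, pow_zero, one_mul]
      exact hp1
    · have h3 := Nat.find_min hex (Nat.sub_lt h one_pos)
      rw [not_lt] at h3
      have h8 : Nat.find hex - 1 + 1 = Nat.find hex := Nat.sub_add_cancel h
      rw [h8] at h3
      exact h3
  refine ⟨μ, ?_, ?_, ?_⟩
  · by_contra hcon
    push Not at hcon
    have h3 : (2 : ℝ) ^ (μ + 1) ≤ 2 ^ (r / 2048) := pow_le_pow_right₀ (by norm_num) hcon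
    have h4 := mul_le_mul_of_nonneg_right h3 hp0.le
    linarith
  · by_contra hcon
    push Not at hcon
    have h3 : (2 : ℝ) ^ (11 * r) < 2 ^ μ := pow_lt_pow_right₀ (by norm_num) hcon
    have h4 := mul_lt_mul_of_pos_right h3 hp0
    linarith
  · intro Q hQ
    have hN : (1 / 2 : ℝ) < 2 ^ μ * p := by
      rw [pow_succ] at hμ1
      linarith
    have hquart : (1 / 4 : ℝ) ≤ (1 - p) ^ (2 ^ μ - 1) := by
      rcases Nat.eq_zero_or_pos μ with h | h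
      · rw [h]
        norm_num
      · obtain ⟨m, rfl⟩ : ∃ m, μ = m + 1 := ⟨μ - 1, by omega⟩
        have h3 : (1 - p) ^ (2 ^ (m + 1)) ≤ (1 - p) ^ (2 ^ (m + 1) - 1) :=
          pow_le_pow_of_le_one (by linarith) (by linarith) (Nat.sub_le _ _)
        have h4 : (1 - p) ^ (2 ^ (m + 1)) = ((1 - p) ^ (2 ^ m)) ^ 2 := by
          rw [← pow_mul, pow_succ]
        have h5 : 1 / 2 ≤ (1 - p) ^ (2 ^ m) := by
          have h6 := one_add_mul_le_pow (show (-2 : ℝ) ≤ -p by linarith) (2 ^ m)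
          push_cast at h6
          rw [pow_succ] at hμ2
          have h7 : (1 : ℝ) + -p = 1 - p := by ring
          rw [h7] at h6
          nlinarith
        have h8 : (1 / 2 : ℝ) ^ 2 ≤ ((1 - p) ^ (2 ^ m)) ^ 2 :=
          pow_le_pow_left₀ (by norm_num) h5 2
        rw [h4] at h3
        linarith
    have h3 : p * Q ≤ 1 / 16 := by
      have h4 : Q ≤ 2 ^ μ / 16 := by linarith
      have h5 := mul_le_mul_of_nonneg_left h4 hp0.le
      nlinarith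
    have h6 : 1 / 8 ≤ p * (2 ^ μ * (1 - p) ^ (2 ^ μ - 1)) := by
      calc (1 / 8 : ℝ) = 1 / 2 * (1 / 4) := by norm_num
        _ ≤ (2 ^ μ * p) * (1 - p) ^ (2 ^ μ - 1) :=
          mul_le_mul hN.le hquart (by norm_num) (by positivity)
        _ = _ := by ring
    rw [mul_sub]
    linarith

theorem main : Pool.Agent.W932.RO.StmNum := by
  intro β r h1 h2 hr
  exact num β r h1 h2 hr

end Pool.Agent.W215.RO
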